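import Pool.Agent.Q295.Fav.Fin

/-!
# Exactly three favorite one-side sites occur infinitely often

`S_n = X_0 + ... + X_{n-1}` is the simple symmetric random walk.  With
`xiU x n = #{0 < k ≤ n : S_{k-1} = x - 1, S_k = x}`, `xiD x n = #{0 < k ≤ n : S_{k-1} = x + 1, S_k = x}` and
`xiStar = max xiU xiD`, almost surely the set `KStar n` of the maximisers of `xiStar (·, n)` has exactly
three elements for infinitely many `n`.
-/

set_option autoImplicit false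

namespace Pool.Agent.Results.MP_cfdc6e_pr.ThreeOften

open MeasureTheory ProbabilityTheory Filter

/-- the number of the upcrossings of `x` by time `n` -/
noncomputable def xiU (S : ℕ → ℤ) (x : ℤ) (n : ℕ) : ℕ :=
  {k : ℕ | 0 < k ∧ k ≤ n ∧ S (k - 1) = x - 1 ∧ S k = x}.ncard

/-- the number of the downcrossings of `x` by time `n` -/
noncomputable def xiD (S : ℕ → ℤ) (x : ℤ) (n : ℕ) : ℕ :=
  {k : ℕ | 0 < k ∧ k ≤ n ∧ S (k - 1) = x + 1 ∧ S k = x}.ncard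

/-- the larger of the two -/
noncomputable def xiStar (S : ℕ → ℤ) (x : ℤ) (n : ℕ) : ℕ := max (xiU S x n) (xiD S x n)

/-- the favorite one-side sites at time `n` -/
def KStar (S : ℕ → ℤ) (n : ℕ) : Set ℤ := {x | ∀ y, xiStar S y n ≤ xiStar S x n}

theorem ncard_shift (P : ℕ → Prop) (n : ℕ) :
    {k : ℕ | 0 < k ∧ k ≤ n ∧ P (k - 1)}.ncard = {k : ℕ | k < n ∧ P k}.ncard := by
  have h1 : {k : ℕ | 0 < k ∧ k ≤ n ∧ P (k - 1)} = (fun k => k + 1) '' {k : ℕ | k < n ∧ P k} := by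
    ext k
    constructor
    · rintro ⟨h1, h2, h3⟩
      exact ⟨k - 1, ⟨by omega, h3⟩, by show k - 1 + 1 = k; omega⟩
    · rintro ⟨j, ⟨h1, h2⟩, rfl⟩
      exact ⟨Nat.succ_pos j, h1, by simpa using h2⟩
  rw [h1]
  exact Set.ncard_image_of_injective _ (fun a b h => by simpa using h)

theorem xiU_eq (S : ℕ → ℤ) (x : ℤ) (n : ℕ) : xiU S x n = Q295.Fav.up S (x - 1) n := by
  have h1 := ncard_shift (fun k => S k = x - 1 ∧ S (k + 1) = x) n
  have h2 : {k : ℕ | 0 < k ∧ k ≤ n ∧ S (k - 1) = x - 1 ∧ S k = x} =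
      {k : ℕ | 0 < k ∧ k ≤ n ∧ (S (k - 1) = x - 1 ∧ S (k - 1 + 1) = x)} := by
    ext k
    constructor
    · rintro ⟨a, b, c, d⟩
      exact ⟨a, b, c, by rw [Nat.sub_add_cancel a]; exact d⟩
    · rintro ⟨a, b, c, d⟩
      exact ⟨a, b, c, by rw [Nat.sub_add_cancel a] at d; exact d⟩
  unfold xiU Q295.Fav.up
  rw [h2, h1, ← Set.ncard_coe_finset]
  congr 1
  ext k
  simp

theorem xiD_eq (S : ℕ → ℤ) (x : ℤ) (n : ℕ) : xiD S x n = Q295.Fav.dn S x n := by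
  have h1 := ncard_shift (fun k => S k = x + 1 ∧ S (k + 1) = x) n
  have h2 : {k : ℕ | 0 < k ∧ k ≤ n ∧ S (k - 1) = x + 1 ∧ S k = x} =
      {k : ℕ | 0 < k ∧ k ≤ n ∧ (S (k - 1) = x + 1 ∧ S (k - 1 + 1) = x)} := by
    ext k
    constructor
    · rintro ⟨a, b, c, d⟩
      exact ⟨a, b, c, by rw [Nat.sub_add_cancel a]; exact d⟩
    · rintro ⟨a, b, c, d⟩
      exact ⟨a, b, c, by rw [Nat.sub_add_cancel a] at d; exact d⟩
  unfold xiD Q295.Fav.dn
  rw [h2, h1, ← Set.ncard_coe_finset]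
  congr 1
  ext k
  simp

theorem KStar_eq (S : ℕ → ℤ) (n : ℕ) : KStar S n = Q295.Fav.Ks 1 0 S n := by
  unfold KStar Q295.Fav.Ks xiStar Q295.Fav.Xi
  simp only [xiU_eq, xiD_eq, sub_zero]

/-- Almost surely `#K*(n) = 3` for infinitely many `n`. -/
theorem result {Ω : Type*} [MeasurableSpace Ω] (μ : Measure Ω) [IsProbabilityMeasure μ]
    (X : ℕ → Ω → ℤ) (hX : ∀ k, Measurable (X k)) (hi : iIndepFun X μ)
    (hp : ∀ k, μ {ω | X k ω = 1} = 1 / 2) (hm : ∀ k, μ {ω | X k ω = -1} = 1 / 2) :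
    ∀ᵐ ω ∂μ, {n : ℕ | 1 ≤ n ∧
      (KStar (fun m => ∑ k ∈ Finset.range m, X k ω) n).encard = 3}.Infinite := by
  filter_upwards [Q295.Fav.four_often_walk hX hi hp hm (c := 1) (d := 0) (Or.inr ⟨rfl, rfl⟩)] with ω h
  obtain ⟨hw, h⟩ := h
  refine (Q295.Fav.three_often (by norm_num) hw h).mono ?_
  rintro n ⟨h1, h2⟩
  refine ⟨h1, ?_⟩
  rw [KStar_eq]
  have hfin : (Q295.Fav.Ks 1 0 (fun m => ∑ k ∈ Finset.range m, X k ω) n).Finite := by
    apply Set.finite_of_ncard_ne_zero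
    omega
  rw [← hfin.cast_ncard_eq, h2]
  rfl

end Pool.Agent.Results.MP_cfdc6e_pr.ThreeOften
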